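import Pool.Agent.H25.Mazur

set_option autoImplicit false
open Set Filter Topology

namespace Pool.Agent.Results.MP_c8715f_al.No

/-- The topology `t` of the abelian group `H` (written multiplicatively) is the finest Hausdorff
group topology in which every sequence of some set `S` of sequences converges to the identity. -/
def SGroup (H : Type) [CommGroup H] [t : TopologicalSpace H] : Prop :=
  ∃ S : Set (ℕ → H), (IsTopologicalGroup H ∧ T2Space H ∧ ∀ u ∈ S, Tendsto u atTop (𝓝 1)) ∧
    ∀ t' : TopologicalSpace H, @IsTopologicalGroup H t' _ → @T2Space H t' →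
      (∀ u ∈ S, Tendsto u atTop (@nhds H t' 1)) → ∀ U, IsOpen[t'] U → IsOpen[t] U

theorem result : ∃ (G : Type) (_ : CommGroup G) (_ : TopologicalSpace G)
    (_ : IsTopologicalGroup G), TopologicalSpace.MetrizableSpace G ∧
      ¬ TopologicalSpace.SeparableSpace G ∧ FrechetUrysohnSpace G ∧ SequentialSpace G ∧
      ¬ SGroup (PontryaginDual G) := by
  have := Pool.Agent.H25.Mazur.metr
  refine ⟨Pool.Agent.H25.Mazur.G, inferInstance, inferInstance, inferInstance, this,
    Pool.Agent.H25.Mazur.nonsep, inferInstance, inferInstance, ?_⟩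
  rintro ⟨S, ⟨h1, h2, h3⟩, h4⟩
  obtain ⟨φ, h5, h6⟩ := Pool.Agent.H25.Mazur.main
  let t : TopologicalSpace (PontryaginDual Pool.Agent.H25.Mazur.G) := inferInstance
  refine h5 ⟨fun U hU => h4 (t ⊓ TopologicalSpace.induced φ inferInstance)
    (topologicalGroup_inf h1 (topologicalGroup_induced φ)) (t2Space_antitone inf_le_left h2)
    (fun u hu => ?_) _ ?_⟩
  · rw [_root_.nhds_inf, nhds_induced, tendsto_inf, tendsto_comap_iff, map_one]
    exact ⟨h3 u hu, h6 u (h3 u hu)⟩
  · exact IsOpen.mono (isOpen_induced hU) inf_le_right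

end Pool.Agent.Results.MP_c8715f_al.No
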